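import Pool.Agent.H548.SC.Defs

/-!
SC-SPEC: the exceptional sets are paid for by the doubled pairs.
-/

set_option autoImplicit false
open Classical Finset

namespace Pool.Agent.R422.SC

open Pool.Agent.H548.SC

theorem half_sum {α β : Type} [DecidableEq β] (P : Finset α) (S : Finset β) (φ : α → β)
    (f : α → ℝ) (w : β → ℝ) (hf : ∀ p, 0 ≤ f p) (hmap : ∀ p ∈ P, φ p ∈ S)
    (h : ∀ W ∈ S, ∃ p ∈ P, ∃ p' ∈ P, p ≠ p' ∧ φ p = W ∧ φ p' = W ∧ w W ≤ (1 / 2) * (f p + f p')) :
    ∑ W ∈ S, w W ≤ (1 / 2) * ∑ p ∈ P, f p := by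
  rw [← Finset.sum_fiberwise_of_maps_to hmap f, Finset.mul_sum]
  apply Finset.sum_le_sum
  intro W hW
  obtain ⟨p, hp, p', hp', hne, h1, h2, h3⟩ := h W hW
  refine h3.trans (mul_le_mul_of_nonneg_left ?_ (by norm_num))
  rw [← Finset.sum_pair hne]
  apply Finset.sum_le_sum_of_subset_of_nonneg
  · intro q hq
    rw [Finset.mem_insert, Finset.mem_singleton] at hq
    rw [Finset.mem_filter]
    rcases hq with rfl | rfl
    · exact ⟨hp, h1⟩
    · exact ⟨hp', h2⟩
  · intro q _ _; exact hf q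

section
variable {ι κ : Type} [Fintype ι] [Fintype κ]

/-- triples for the row case -/
noncomputable def PR (ι κ : Type) [Fintype ι] [Fintype κ] :
    Finset ((ι × κ) × (ι × κ) × (ι × κ)) :=
  univ.filter (fun p => gen p.1 p.2.1 ∧ p.2.2.1 = p.1.1 ∧ p.2.2.2 ≠ p.1.2 ∧ p.2.2.2 ≠ p.2.1.2)

/-- triples for the column case -/
noncomputable def PC (ι κ : Type) [Fintype ι] [Fintype κ] :
    Finset ((ι × κ) × (ι × κ) × (ι × κ)) :=
  univ.filter (fun p => gen p.1 p.2.1 ∧ p.2.2.2 = p.1.2 ∧ p.2.2.1 ≠ p.1.1 ∧ p.2.2.1 ≠ p.2.1.1)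

/-- all triples -/
noncomputable def PA (ι κ : Type) [Fintype ι] [Fintype κ] :
    Finset ((ι × κ) × (ι × κ) × (ι × κ)) :=
  univ.filter (fun p => gen p.1 p.2.1 ∧ p.2.2 ≠ p.1 ∧ p.2.2 ≠ p.2.1)

/-- the weight of a triple -/
noncomputable def F (t : ι × κ → ℝ) (p : (ι × κ) × (ι × κ) × (ι × κ)) : ℝ :=
  t p.1 ^ 2 * t p.2.1 ^ 2 * t p.2.2

/-- the set of a triple -/
noncomputable def phi (p : (ι × κ) × (ι × κ) × (ι × κ)) : Finset (ι × κ) :=
  {p.1, (p.1.1, p.2.1.2), (p.2.1.1, p.1.2), p.2.1, p.2.2}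

theorem F_nonneg {t : ι × κ → ℝ} (ht : ∀ x, 0 ≤ t x) (p : (ι × κ) × (ι × κ) × (ι × κ)) :
    0 ≤ F t p := by
  unfold F
  have := ht p.2.2
  positivity

theorem amgm {a b c d e : ℝ} (he : 0 ≤ e) :
    a * c * d * b * e ≤ (1 / 2) * (a ^ 2 * b ^ 2 * e + c ^ 2 * d ^ 2 * e) := by
  have : 0 ≤ (a * b - c * d) ^ 2 * e := mul_nonneg (sq_nonneg _) he
  nlinarith

theorem wt_five (t : ι × κ → ℝ) {x y z u v : ι × κ} (h1 : x ≠ y) (h2 : x ≠ z) (h3 : x ≠ u)
    (h4 : x ≠ v) (h5 : y ≠ z) (h6 : y ≠ u) (h7 : y ≠ v) (h8 : z ≠ u) (h9 : z ≠ v) (h10 : u ≠ v) :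
    wt t {x, y, z, u, v} = t x * t y * t z * t u * t v := by
  unfold wt
  rw [prod_insert (by simp [h1, h2, h3, h4]), prod_insert (by simp [h5, h6, h7]),
    prod_insert (by simp [h8, h9]), prod_insert (by simp [h10]), prod_singleton]
  ring

theorem row_case {t : ι × κ → ℝ} (ht : ∀ x, 0 ≤ t x) :
    ∑ W ∈ (univ : Finset (Finset (ι × κ))) with spR W, wt t W ≤
      (1 / 2) * ∑ p ∈ PR ι κ, F t p := by
  apply half_sum (PR ι κ) _ phi (F t) (wt t) (F_nonneg ht)
  · rintro ⟨⟨i, j⟩, ⟨i', j'⟩, ⟨a, k⟩⟩ hp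
    simp only [PR, mem_filter, mem_univ, true_and, gen] at hp
    obtain ⟨⟨h1, h2⟩, h3, h4, h5⟩ := hp
    subst h3
    rw [mem_filter]
    exact ⟨mem_univ _, a, i', j, j', k, h1, h2, h4, h5, rfl⟩
  · intro W hW
    rw [mem_filter] at hW
    obtain ⟨_, i, i', j, j', k, h1, h2, h3, h4, rfl⟩ := hW
    refine ⟨((i, j), (i', j'), (i, k)), ?_, ((i, j'), (i', j), (i, k)), ?_, ?_, rfl, ?_, ?_⟩
    · simp only [PR, mem_filter, mem_univ, true_and, gen]
      exact ⟨⟨h1, h2⟩, h3, h4⟩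
    · simp only [PR, mem_filter, mem_univ, true_and, gen]
      exact ⟨⟨h1, h2.symm⟩, h4, h3⟩
    · simp [h2]
    · unfold phi
      ext x
      simp only [mem_insert, mem_singleton]
      tauto
    · rw [wt_five t (by simp [h2]) (by simp [h1]) (by simp [h1]) (by simp [h3.symm])
        (by simp [h1]) (by simp [h1]) (by simp [h4.symm]) (by simp [h2]) (by simp [h1.symm])
        (by simp [h1.symm])]
      unfold F
      exact amgm (ht _)

theorem col_case {t : ι × κ → ℝ} (ht : ∀ x, 0 ≤ t x) :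
    ∑ W ∈ (univ : Finset (Finset (ι × κ))) with spC W, wt t W ≤
      (1 / 2) * ∑ p ∈ PC ι κ, F t p := by
  apply half_sum (PC ι κ) _ phi (F t) (wt t) (F_nonneg ht)
  · rintro ⟨⟨i, j⟩, ⟨i', j'⟩, ⟨k, b⟩⟩ hp
    simp only [PC, mem_filter, mem_univ, true_and, gen] at hp
    obtain ⟨⟨h1, h2⟩, h3, h4, h5⟩ := hp
    subst h3
    rw [mem_filter]
    refine ⟨mem_univ _, i, i', k, b, j', h1, h2, h4, h5, ?_⟩
    unfold phi
    ext x
    simp only [mem_insert, mem_singleton]
    tauto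
  · intro W hW
    rw [mem_filter] at hW
    obtain ⟨_, i, i', k, j, j', h1, h2, h3, h4, rfl⟩ := hW
    refine ⟨((i, j), (i', j'), (k, j)), ?_, ((i', j), (i, j'), (k, j)), ?_, ?_, ?_, ?_, ?_⟩
    · simp only [PC, mem_filter, mem_univ, true_and, gen]
      exact ⟨⟨h1, h2⟩, h3, h4⟩
    · simp only [PC, mem_filter, mem_univ, true_and, gen]
      exact ⟨⟨h1.symm, h2⟩, h4, h3⟩
    · simp [h1]
    · unfold phi
      ext x
      simp only [mem_insert, mem_singleton]
      tauto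
    · unfold phi
      ext x
      simp only [mem_insert, mem_singleton]
      tauto
    · rw [wt_five t (by simp [h1]) (by simp [h2]) (by simp [h1]) (by simp [h3.symm])
        (by simp [h2]) (by simp [h2]) (by simp [h4.symm]) (by simp [h1]) (by simp [h2.symm])
        (by simp [h2.symm])]
      unfold F
      exact amgm (ht _)

theorem triples {t : ι × κ → ℝ} (ht : ∀ x, 0 ≤ t x) :
    ∑ p ∈ PA ι κ, F t p ≤ ∑ S ∈ (univ : Finset (Finset (ι × κ))) with 3 ≤ S.card,
      ∑ x ∈ S, ∑ y ∈ S, if gen x y then t x * t y * wt t S else 0 := by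
  have e : ∑ S ∈ (univ : Finset (Finset (ι × κ))) with 3 ≤ S.card,
      ∑ x ∈ S, ∑ y ∈ S, (if gen x y then t x * t y * wt t S else 0) =
      ∑ q : Finset (ι × κ) × (ι × κ) × (ι × κ),
        if 3 ≤ q.1.card ∧ q.2.1 ∈ q.1 ∧ q.2.2 ∈ q.1 ∧ gen q.2.1 q.2.2 then
          t q.2.1 * t q.2.2 * wt t q.1 else 0 := by
    rw [Fintype.sum_prod_type, sum_filter]
    apply sum_congr rfl
    intro S _
    rw [Fintype.sum_prod_type]
    by_cases hS : 3 ≤ S.card
    · rw [if_pos hS, ← Finset.sum_subset (subset_univ S)]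
      · apply sum_congr rfl
        intro x hx
        rw [← Finset.sum_subset (subset_univ S)]
        · apply sum_congr rfl
          intro y hy
          simp [hS, hx, hy]
        · intro y _ hy
          simp [hy]
      · intro x _ hx
        apply sum_eq_zero
        intro y _
        simp [hx]
    · rw [if_neg hS]
      symm
      apply sum_eq_zero
      intro x _
      apply sum_eq_zero
      intro y _
      simp [hS]
  rw [e]
  let ψ : (ι × κ) × (ι × κ) × (ι × κ) → Finset (ι × κ) × (ι × κ) × (ι × κ) :=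
    fun p => ({p.1, p.2.1, p.2.2}, p.1, p.2.1)
  have hne : ∀ p ∈ PA ι κ, p.1 ≠ p.2.1 ∧ p.1 ≠ p.2.2 ∧ p.2.1 ≠ p.2.2 := by
    intro p hp
    simp only [PA, mem_filter, mem_univ, true_and, gen] at hp
    refine ⟨?_, hp.2.1.symm, hp.2.2.symm⟩
    intro h; exact hp.1.1 (by rw [h])
  have hinj : Set.InjOn ψ (PA ι κ) := by
    intro p hp p' hp' h
    have hp1 := hne p hp
    simp only [ψ, Prod.mk.injEq] at h
    obtain ⟨h1, h2, h3⟩ := h
    have : p.2.2 ∈ ({p'.1, p'.2.1, p'.2.2} : Finset (ι × κ)) := by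
      rw [← h1]; simp
    rw [← h2, ← h3] at this
    simp only [mem_insert, mem_singleton] at this
    rcases this with h4 | h4 | h4
    · exact absurd h4.symm hp1.2.1
    · exact absurd h4.symm hp1.2.2
    · exact Prod.ext h2 (Prod.ext h3 h4)
  calc ∑ p ∈ PA ι κ, F t p = ∑ p ∈ PA ι κ, (fun q : Finset (ι × κ) × (ι × κ) × (ι × κ) =>
        if 3 ≤ q.1.card ∧ q.2.1 ∈ q.1 ∧ q.2.2 ∈ q.1 ∧ gen q.2.1 q.2.2 then
          t q.2.1 * t q.2.2 * wt t q.1 else 0) (ψ p) := by
        apply sum_congr rfl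
        intro p hp
        obtain ⟨h1, h2, h3⟩ := hne p hp
        have hgen : gen p.1 p.2.1 := (mem_filter.1 hp).2.1
        have hcard : ({p.1, p.2.1, p.2.2} : Finset (ι × κ)).card = 3 := by
          rw [card_insert_of_notMem (by simp [h1, h2]), card_insert_of_notMem (by simp [h3]),
            card_singleton]
        have hwt : wt t {p.1, p.2.1, p.2.2} = t p.1 * t p.2.1 * t p.2.2 := by
          unfold wt
          rw [prod_insert (by simp [h1, h2]), prod_insert (by simp [h3]), prod_singleton]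
          ring
        simp only [ψ]
        rw [if_pos ⟨hcard.ge, by simp, by simp, hgen⟩, hwt]
        unfold F
        ring
    _ = ∑ q ∈ (PA ι κ).image ψ, (if 3 ≤ q.1.card ∧ q.2.1 ∈ q.1 ∧ q.2.2 ∈ q.1 ∧ gen q.2.1 q.2.2 then
          t q.2.1 * t q.2.2 * wt t q.1 else 0) := by
        rw [sum_image hinj]
    _ ≤ _ := by
        apply sum_le_sum_of_subset_of_nonneg (subset_univ _)
        intro q _ _
        split_ifs
        · exact mul_nonneg (mul_nonneg (ht _) (ht _)) (prod_nonneg fun x _ => ht x)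
        · exact le_rfl

end

theorem stmtSpec : StmtSpec := by
  intro ι κ _ _ t ht
  have h1 := row_case ht
  have h2 := col_case ht
  have h3 := triples ht
  have hw : ∀ W : Finset (ι × κ), 0 ≤ wt t W := fun W => prod_nonneg fun x _ => ht x
  have h4 : ∑ W ∈ (univ : Finset (Finset (ι × κ))) with spR W ∨ spC W, wt t W ≤
      ∑ W ∈ (univ : Finset (Finset (ι × κ))) with spR W, wt t W +
      ∑ W ∈ (univ : Finset (Finset (ι × κ))) with spC W, wt t W := by
    rw [filter_or, ← sum_union_inter]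
    exact le_add_of_nonneg_right (sum_nonneg fun W _ => hw W)
  have h5 : ∑ p ∈ PR ι κ, F t p + ∑ p ∈ PC ι κ, F t p ≤ ∑ p ∈ PA ι κ, F t p := by
    have hd : Disjoint (PR ι κ) (PC ι κ) := by
      rw [Finset.disjoint_left]
      intro p hp hp'
      exact (mem_filter.1 hp').2.2.2.1 (mem_filter.1 hp).2.2.1
    rw [← sum_union hd]
    apply sum_le_sum_of_subset_of_nonneg
    · intro p hp
      rw [mem_union] at hp
      rcases hp with hp | hp
      · have h := (mem_filter.1 hp).2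
        refine mem_filter.2 ⟨mem_univ _, h.1, ?_, ?_⟩
        · intro e; exact h.2.2.1 (by rw [e])
        · intro e; exact h.2.2.2 (by rw [e])
      · have h := (mem_filter.1 hp).2
        refine mem_filter.2 ⟨mem_univ _, h.1, ?_, ?_⟩
        · intro e; exact h.2.2.1 (by rw [e])
        · intro e; exact h.2.2.2 (by rw [e])
    · intro p _ _; exact F_nonneg ht p
  linarith

end Pool.Agent.R422.SC
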